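import Pool.Agent.Helper75.PX.Stmts

/-! Row TRM of project PX (MP_ce4989_al): the trace and the minimal polynomial. -/

set_option autoImplicit false

open Module Polynomial

namespace Pool.Agent.Helper75.PX

universe u

theorem TRM_trace (K D : Type u) [Field K] [DivisionRing D] [Algebra K D]
    [FiniteDimensional K D] (x : D) :
    ∃ k : ℕ, finrank K D = (minpoly K x).natDegree * k ∧
      trL K x = (k : K) * (-(minpoly K x).nextCoeff) := by
  classical
  have hint : IsIntegral K x := Algebra.IsIntegral.isIntegral x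
  obtain ⟨P, hP⟩ : ∃ P, P = minpoly K x := ⟨_, rfl⟩
  have hirr : Irreducible P := by rw [hP]; exact minpoly.irreducible hint
  have hmon : P.Monic := by rw [hP]; exact minpoly.monic hint
  have hPx : aeval x P = 0 := by rw [hP]; exact minpoly.aeval K x
  rw [← hP]
  haveI : Fact (Irreducible P) := ⟨hirr⟩
  obtain ⟨f, hf⟩ : ∃ f : AdjoinRoot P →ₐ[K] D, ∀ q : K[X], f (AdjoinRoot.mk P q) = aeval x q := by
    refine ⟨Ideal.Quotient.liftₐ (Ideal.span {P}) (aeval x) ?_, fun q => rfl⟩
    intro a ha
    obtain ⟨y, rfl⟩ := Ideal.mem_span_singleton.1 ha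
    rw [map_mul, hPx, zero_mul]
  have hroot : f (AdjoinRoot.root P) = x := by
    have := hf X
    rwa [AdjoinRoot.mk_X, aeval_X] at this
  letI : Module (AdjoinRoot P) D := Module.compHom D f.toRingHom
  have hsmul : ∀ (e : AdjoinRoot P) (d : D), e • d = f e * d := fun e d => rfl
  haveI : IsScalarTower K (AdjoinRoot P) D := by
    constructor
    intro c e d
    rw [hsmul, hsmul, map_smul, smul_mul_assoc]
  haveI : FiniteDimensional (AdjoinRoot P) D := FiniteDimensional.right K (AdjoinRoot P) D
  obtain ⟨pb, hpb⟩ : ∃ pb : PowerBasis K (AdjoinRoot P), pb.gen = AdjoinRoot.root P :=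
    ⟨AdjoinRoot.powerBasis' hmon, AdjoinRoot.powerBasis'_gen hmon⟩
  have hb := Module.finBasis (AdjoinRoot P) D
  obtain ⟨n, b⟩ : ∃ n : ℕ, Nonempty (Basis (Fin n) (AdjoinRoot P) D) := ⟨_, ⟨hb⟩⟩
  obtain ⟨b⟩ := b
  have htr : trL K x = (n : K) * Algebra.trace K (AdjoinRoot P) (AdjoinRoot.root P) := by
    unfold trL
    rw [LinearMap.trace_eq_matrix_trace K (pb.basis.smulTower b),
      Algebra.trace_eq_matrix_trace pb.basis]
    simp only [Matrix.trace, Matrix.diag_apply, LinearMap.toMatrix_apply,
      Algebra.leftMulMatrix_eq_repr_mul, LinearMap.mulLeft_apply, Basis.smulTower_apply,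
      Basis.smulTower_repr, Fintype.sum_prod_type]
    rw [Finset.sum_comm, Finset.sum_congr rfl (g := fun _ => ∑ i, (pb.basis.repr
      (AdjoinRoot.root P * pb.basis i)) i)]
    · simp
    · intro j _
      refine Finset.sum_congr rfl fun i _ => ?_
      have h1 : x * (pb.basis i • b j) = (AdjoinRoot.root P * pb.basis i) • b j := by
        rw [hsmul, hsmul, map_mul, hroot, mul_assoc]
      rw [h1, map_smul, Finsupp.smul_apply, Basis.repr_self, Finsupp.single_eq_same, smul_eq_mul,
        mul_one]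
  have hmin : minpoly K (AdjoinRoot.root P) = P := by
    have := AdjoinRoot.minpoly_root (f := P) hirr.ne_zero
    rw [this, hmon.leadingCoeff, inv_one, C_1, mul_one]
  have htr2 : Algebra.trace K (AdjoinRoot P) (AdjoinRoot.root P) = -P.nextCoeff := by
    have := PowerBasis.trace_gen_eq_nextCoeff_minpoly pb
    rw [hpb, hmin] at this
    exact this
  refine ⟨n, ?_, by rw [htr, htr2]⟩
  rw [← finrank_mul_finrank K (AdjoinRoot P) D, finrank_eq_card_basis b, Fintype.card_fin,
    pb.finrank, ← pb.natDegree_minpoly, hpb, hmin]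

theorem st_TRM (_h1 : ST_MDV.{u}) : ST_TRM.{u} := by
  intro K D _ _ _ _ x hN h0
  obtain ⟨k, hk, ht⟩ := TRM_trace K D x
  rw [h0] at ht
  have hk0 : (k : K) ≠ 0 := by
    intro h
    apply hN
    rw [hk, Nat.cast_mul, h, mul_zero]
  have h2 : (minpoly K x).nextCoeff = 0 := by
    rcases mul_eq_zero.1 ht.symm with h | h
    · exact absurd h hk0
    · exact neg_eq_zero.1 h
  rwa [nextCoeff_of_natDegree_pos (minpoly.natDegree_pos (Algebra.IsIntegral.isIntegral x))] at h2

end Pool.Agent.Helper75.PX
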